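import Mathlib

/-!
Powers of `y = X - x` when the words `x X^i x` vanish for small `i`.
-/

namespace Pool.Agent.Y461.MPS

theorem pow_step {R : Type*} [Ring R] (X x y : R) (n : ℕ) (hxy : x + y = X)
    (hn : y ^ n = X ^ n - ∑ j ∈ Finset.range n, X ^ (n - 1 - j) * x * X ^ j) :
    y ^ (n + 1) = X ^ (n + 1) - ∑ j ∈ Finset.range (n + 1), X ^ (n - j) * x * X ^ j
      + ∑ j ∈ Finset.range n, X ^ (n - 1 - j) * (x * X ^ j * x) := by
  have hy : y = X - x := by rw [← hxy]; abel
  rw [pow_succ, hn]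
  rw [hy]
  rw [mul_sub, sub_mul, sub_mul, Finset.sum_mul, Finset.sum_mul, Finset.sum_range_succ']
  have e1 : ∑ j ∈ Finset.range n, X ^ (n - 1 - j) * x * X ^ j * X
      = ∑ j ∈ Finset.range n, X ^ (n - (j + 1)) * x * X ^ (j + 1) := by
    refine Finset.sum_congr rfl fun j hj => ?_
    rw [mul_assoc (X ^ (n - 1 - j) * x), ← pow_succ, Nat.sub_sub, Nat.add_comm 1 j]
  have e2 : ∑ j ∈ Finset.range n, X ^ (n - 1 - j) * x * X ^ j * x
      = ∑ j ∈ Finset.range n, X ^ (n - 1 - j) * (x * X ^ j * x) := by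
    refine Finset.sum_congr rfl fun j hj => ?_
    simp only [mul_assoc]
  rw [e1, e2, ← pow_succ]
  simp only [pow_zero, mul_one, Nat.sub_zero]
  abel

theorem pow_form {R : Type*} [Ring R] (X x y : R) (c : ℕ) (hxy : x + y = X)
    (hxx : ∀ i, i + 2 ≤ c → x * X ^ i * x = 0) :
    ∀ n, n ≤ c → y ^ n = X ^ n - ∑ j ∈ Finset.range n, X ^ (n - 1 - j) * x * X ^ j := by
  intro n
  induction n with
  | zero => intro _; simp
  | succ n ih =>
    intro hn
    rw [pow_step X x y n hxy (ih (by omega))]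
    have e : ∑ j ∈ Finset.range n, X ^ (n - 1 - j) * (x * X ^ j * x) = 0 := by
      refine Finset.sum_eq_zero fun j hj => ?_
      rw [Finset.mem_range] at hj
      rw [hxx j (by omega), mul_zero]
    rw [e, add_zero]
    rfl

end Pool.Agent.Y461.MPS
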