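import Pool.Agent.Y659.MPS.Stm
import Pool.Agent.Y461.MPS.Pw

/-!
The case `α ≠ 0` of the normal form: some `X - s w` is nilpotent.
-/

namespace Pool.Agent.Y461.MPS

open Matrix
open Pool.Agent.Y659.MPS

theorem S3B : Pool.Agent.Y659.MPS.St_S3B := by
  intro D X w c a α hXu hw0 hc hww hind hP hα
  have hw2 : w * w = 0 := by
    have := hww 0 (by omega)
    simpa using this
  set T : ℕ → Matrix (Fin D) (Fin D) ℂ := fun j => X ^ (c + 1 - j) * w * X ^ j with hT
  set P := w * X ^ (c - 1) * w with hPdef
  set Q := w * X ^ c * w with hQdef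
  -- products with `X`
  have hPX : P * X = ∑ j ∈ Finset.range (c + 1), a j • T (j + 1) + α • X ^ (c + 2) := by
    rw [hP, add_mul, Finset.sum_mul]
    congr 1
    · refine Finset.sum_congr rfl fun j hj => ?_
      rw [smul_mul_assoc, hT]
      simp only
      rw [mul_assoc (X ^ (c - j) * w), ← pow_succ]
      congr 4
      omega
    · rw [smul_mul_assoc, ← pow_succ]
  have hXP : X * P = ∑ j ∈ Finset.range (c + 1), a j • T j + α • X ^ (c + 2) := by
    rw [hP, mul_add, Finset.mul_sum]
    congr 1
    · refine Finset.sum_congr rfl fun j hj => ?_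
      rw [Finset.mem_range] at hj
      rw [mul_smul_comm, hT]
      simp only
      rw [← mul_assoc, ← mul_assoc, ← pow_succ']
      congr 4
      omega
    · rw [mul_smul_comm, ← pow_succ']
  have hI : a 0 • Q + a 1 • (P * X) + α • T (c + 1) = 0 := by
    have h0 : w * P = 0 := by
      rw [hPdef, ← mul_assoc, ← mul_assoc, hw2, zero_mul, zero_mul]
    rw [hP, mul_add, Finset.mul_sum, mul_smul_comm] at h0
    have e : ∑ j ∈ Finset.range (c + 1), w * a j • (X ^ (c - j) * w * X ^ j)
        = a 0 • Q + a 1 • (P * X) := by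
      obtain ⟨d, rfl⟩ : ∃ d, c = d + 1 := ⟨c - 1, by omega⟩
      rw [Finset.sum_range_succ', Finset.sum_range_succ']
      have z : ∑ j ∈ Finset.range d,
          w * a (j + 1 + 1) • (X ^ (d + 1 - (j + 1 + 1)) * w * X ^ (j + 1 + 1)) = 0 := by
        refine Finset.sum_eq_zero fun j hj => ?_
        rw [Finset.mem_range] at hj
        rw [mul_smul_comm, ← mul_assoc, ← mul_assoc, hww _ (by omega), zero_mul, smul_zero]
      rw [z]
      simp only [zero_add, Nat.sub_zero, pow_zero, mul_one, pow_one, mul_smul_comm]
      rw [hQdef, hPdef]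
      simp only [Nat.add_sub_cancel, ← mul_assoc]
      abel
    rw [e] at h0
    have e2 : T (c + 1) = w * X ^ (c + 1) := by
      simp [hT]
    rw [e2]
    exact h0
  have hII : a c • Q + a (c - 1) • (X * P) + α • T 0 = 0 := by
    have h0 : P * w = 0 := by
      rw [hPdef, mul_assoc, hw2, mul_zero]
    rw [hP, add_mul, Finset.sum_mul, smul_mul_assoc] at h0
    have e : ∑ j ∈ Finset.range (c + 1), a j • (X ^ (c - j) * w * X ^ j) * w
        = a c • Q + a (c - 1) • (X * P) := by
      obtain ⟨d, rfl⟩ : ∃ d, c = d + 1 := ⟨c - 1, by omega⟩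
      rw [Finset.sum_range_succ, Finset.sum_range_succ]
      have z : ∑ j ∈ Finset.range d,
          a j • (X ^ (d + 1 - j) * w * X ^ j) * w = 0 := by
        refine Finset.sum_eq_zero fun j hj => ?_
        rw [Finset.mem_range] at hj
        rw [smul_mul_assoc, mul_assoc, mul_assoc, ← mul_assoc w, hww _ (by omega), mul_zero,
          smul_zero]
      rw [z]
      simp only [zero_add, smul_mul_assoc]
      rw [hQdef, hPdef]
      simp only [Nat.add_sub_cancel, Nat.sub_self, pow_zero, one_mul, Nat.add_sub_cancel_left,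
        pow_one, mul_assoc]
      abel
    rw [e] at h0
    have e2 : T 0 = X ^ (c + 1) * w := by
      simp [hT]
    rw [e2]
    exact h0
  -- `a 0 ≠ 0`
  have ha0 : a 0 ≠ 0 := by
    intro h0
    rw [h0, zero_smul, zero_add, hPX] at hI
    have key := hind (fun j => (if 1 ≤ j then a 1 * a (j - 1) else 0) +
      (if j = c + 1 then α else 0)) (a 1 * α) (by
        rw [← hI]
        simp only [add_smul, Finset.sum_add_distrib]
        have e1 : ∑ j ∈ Finset.range (c + 2), (if 1 ≤ j then a 1 * a (j - 1) else 0) •
            (X ^ (c + 1 - j) * w * X ^ j) = a 1 • ∑ j ∈ Finset.range (c + 1), a j • T (j + 1) := by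
          rw [Finset.sum_range_succ', Finset.smul_sum]
          simp [smul_smul, hT]
        have e2 : ∑ j ∈ Finset.range (c + 2), (if j = c + 1 then α else 0) •
            (X ^ (c + 1 - j) * w * X ^ j) = α • T (c + 1) := by
          rw [Finset.sum_eq_single (c + 1)]
          · simp [hT]
          · intro j _ hj; simp [hj]
          · intro h; exact absurd (Finset.mem_range.mpr (by omega)) h
        rw [e1, e2, smul_add, smul_smul]
        abel)
    have k1 : a 1 = 0 := by
      rcases mul_eq_zero.mp key.2 with h | h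
      · exact h
      · exact absurd h hα
    have k2 := key.1 (c + 1) (by omega)
    simp [k1] at k2
    exact hα k2
  -- comparison
  have hcmp : (a c * a 1) • (P * X) - (a 0 * a (c - 1)) • (X * P) + (a c * α) • T (c + 1)
      - (a 0 * α) • T 0 = 0 := by
    have : a c • (a 0 • Q + a 1 • (P * X) + α • T (c + 1))
        - a 0 • (a c • Q + a (c - 1) • (X * P) + α • T 0) = 0 := by
      rw [hI, hII]; simp
    rw [← this]
    simp only [smul_add, smul_smul, mul_comm (a 0) (a c)]
    abel
  rw [hPX, hXP] at hcmp
  have key := hind (fun j => (if 1 ≤ j then a c * a 1 * a (j - 1) else 0) -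
      (if j ≤ c then a 0 * a (c - 1) * a j else 0) +
      (if j = c + 1 then a c * α else 0) - (if j = 0 then a 0 * α else 0))
      (a c * a 1 * α - a 0 * a (c - 1) * α) (by
        rw [← hcmp]
        simp only [add_smul, sub_smul, Finset.sum_add_distrib, Finset.sum_sub_distrib]
        have e1 : ∑ j ∈ Finset.range (c + 2), (if 1 ≤ j then a c * a 1 * a (j - 1) else 0) •
            (X ^ (c + 1 - j) * w * X ^ j)
            = (a c * a 1) • ∑ j ∈ Finset.range (c + 1), a j • T (j + 1) := by
          rw [Finset.sum_range_succ', Finset.smul_sum]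
          simp [smul_smul, hT]
        have e1' : ∑ j ∈ Finset.range (c + 2), (if j ≤ c then a 0 * a (c - 1) * a j else 0) •
            (X ^ (c + 1 - j) * w * X ^ j)
            = (a 0 * a (c - 1)) • ∑ j ∈ Finset.range (c + 1), a j • T j := by
          rw [Finset.sum_range_succ, Finset.smul_sum]
          have : ¬ (c + 1 ≤ c) := by omega
          rw [if_neg this, zero_smul, add_zero]
          refine Finset.sum_congr rfl fun j hj => ?_
          rw [Finset.mem_range] at hj
          rw [if_pos (by omega), smul_smul]
        have e2 : ∑ j ∈ Finset.range (c + 2), (if j = c + 1 then a c * α else 0) •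
            (X ^ (c + 1 - j) * w * X ^ j) = (a c * α) • T (c + 1) := by
          rw [Finset.sum_eq_single (c + 1)]
          · simp [hT]
          · intro j _ hj; simp [hj]
          · intro h; exact absurd (Finset.mem_range.mpr (by omega)) h
        have e3 : ∑ j ∈ Finset.range (c + 2), (if j = 0 then a 0 * α else 0) •
            (X ^ (c + 1 - j) * w * X ^ j) = (a 0 * α) • T 0 := by
          rw [Finset.sum_eq_single 0]
          · simp [hT]
          · intro j _ hj; simp [hj]
          · intro h; exact absurd (Finset.mem_range.mpr (by omega)) h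
        rw [e1, e1', e2, e3, smul_add, smul_add, smul_smul, smul_smul]
        abel)
  have hρ : a c * a 1 = a 0 * a (c - 1) := by
    have h := key.2
    rw [← sub_mul] at h
    rcases mul_eq_zero.mp h with h | h
    · exact sub_eq_zero.mp h
    · exact absurd h hα
  have hρα : a c * a 1 = -α := by
    have h := key.1 0 (by omega)
    simp at h
    rw [← hρ] at h
    have h2 : (a c * a 1 + α) * a 0 = 0 := by linear_combination -h
    rcases mul_eq_zero.mp h2 with h | h
    · linear_combination h
    · exact absurd h ha0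
  have hstep : ∀ j, j < c → a (j + 1) = a j := by
    intro j hj
    have h := key.1 (j + 1) (by omega)
    have n1 : ¬ (j + 1 = c + 1) := by omega
    have n2 : ¬ (j + 1 = 0) := by omega
    simp only [if_pos (show 1 ≤ j + 1 by omega), if_pos (show j + 1 ≤ c by omega), if_neg n1,
      if_neg n2, Nat.add_sub_cancel, ← hρ, hρα] at h
    have h2 : α * (a (j + 1) - a j) = 0 := by linear_combination h
    rcases mul_eq_zero.mp h2 with h | h
    · exact absurd h hα
    · exact sub_eq_zero.mp h
  have hall : ∀ j, j ≤ c → a j = a 0 := by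
    intro j
    induction j with
    | zero => intro _; rfl
    | succ j ih => intro hj; rw [hstep j (by omega), ih (by omega)]
  have hα2 : α = -(a 0 * a 0) := by
    rw [hall c le_rfl, hall 1 (by omega)] at hρα
    linear_combination hρα
  -- the element
  refine ⟨(a 0)⁻¹, inv_ne_zero ha0, ?_⟩
  set s := (a 0)⁻¹ with hs
  set x := s • w with hx
  have hxx : ∀ i, i + 2 ≤ c → x * X ^ i * x = 0 := by
    intro i hi
    rw [hx, smul_mul_assoc, smul_mul_assoc, mul_smul_comm, hww i hi, smul_zero, smul_zero]
  have hxP : x * X ^ (c - 1) * x = ∑ j ∈ Finset.range (c + 1), X ^ (c - j) * x * X ^ j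
      - X ^ (c + 1) := by
    rw [hx, smul_mul_assoc, smul_mul_assoc, mul_smul_comm, ← hPdef, hP, smul_smul, smul_add,
      smul_smul, Finset.smul_sum]
    have e1 : s * s * α = -1 := by
      rw [hα2, hs]; field_simp
    rw [e1, neg_one_smul, ← sub_eq_add_neg]
    congr 1
    refine Finset.sum_congr rfl fun j hj => ?_
    rw [Finset.mem_range] at hj
    rw [hall j (by omega), smul_smul, mul_smul_comm, smul_mul_assoc]
    congr 1
    rw [hs]; field_simp
  have hxy : x + (X - x) = X := by abel
  have h1 := pow_step X x (X - x) c hxy (pow_form X x (X - x) c hxy hxx c le_rfl)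
  rw [h1]
  obtain ⟨d, rfl⟩ : ∃ d, c = d + 1 := ⟨c - 1, by omega⟩
  have e : ∑ j ∈ Finset.range (d + 1), X ^ (d + 1 - 1 - j) * (x * X ^ j * x)
      = x * X ^ (d + 1 - 1) * x := by
    rw [Finset.sum_range_succ]
    have z : ∑ j ∈ Finset.range d, X ^ (d + 1 - 1 - j) * (x * X ^ j * x) = 0 := by
      refine Finset.sum_eq_zero fun j hj => ?_
      rw [Finset.mem_range] at hj
      rw [hxx j (by omega), mul_zero]
    rw [z]
    simp
  rw [e, hxP]
  abel

end Pool.Agent.Y461.MPS
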