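import Pool.Agent.Y659.MPS.Stm

/-!
The last step: an orbit of length `D` on which `x` and `y` act as a shift gives a contradiction.
-/

namespace Pool.Agent.Y461.MPS

open Matrix
open Pool.Agent.Y659.MPS

theorem stab_top {D N : ℕ} {W : Submodule ℂ (Matrix (Fin D) (Fin D) ℂ)}
    {x y : Matrix (Fin D) (Fin D) ℂ} (hW : W ≤ Submodule.span ℂ {x, y}) (hN : W ^ N = ⊤)
    (U : Submodule ℂ (Fin D → ℂ)) (hx : ∀ u ∈ U, x *ᵥ u ∈ U) (hy : ∀ u ∈ U, y *ᵥ u ∈ U)
    {τ : Fin D → ℂ} (hτ : τ ∈ U) (hτ0 : τ ≠ 0) : U = ⊤ := by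
  have h1 : ∀ M ∈ W, ∀ u ∈ U, M *ᵥ u ∈ U := by
    intro M hM u hu
    obtain ⟨a, b, rfl⟩ := Submodule.mem_span_pair.mp (hW hM)
    rw [add_mulVec, smul_mulVec, smul_mulVec]
    exact U.add_mem (U.smul_mem _ (hx u hu)) (U.smul_mem _ (hy u hu))
  have h2 : ∀ n, ∀ M ∈ W ^ n, ∀ u ∈ U, M *ᵥ u ∈ U := by
    intro n
    induction n with
    | zero =>
      intro M hM u hu
      rw [pow_zero, Submodule.mem_one] at hM
      obtain ⟨r, rfl⟩ := hM
      rw [Algebra.algebraMap_eq_smul_one, smul_mulVec, one_mulVec]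
      exact U.smul_mem _ hu
    | succ n ih =>
      intro M hM u hu
      rw [pow_succ] at hM
      refine Submodule.mul_induction_on (C := fun M => M *ᵥ u ∈ U) hM ?_ ?_
      · intro A hA B hB
        rw [← mulVec_mulVec]
        exact ih A hA _ (h1 B hB u hu)
      · intro A B hA hB
        rw [add_mulVec]
        exact U.add_mem hA hB
  rw [eq_top_iff]
  intro v _
  obtain ⟨i, hi⟩ : ∃ i, τ i ≠ 0 := by
    by_contra h
    push Not at h
    exact hτ0 (funext h)
  have h3 := h2 N (vecMulVec v (Pi.single i (τ i)⁻¹)) (by rw [hN]; trivial) τ hτ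
  rw [vecMulVec_mulVec] at h3
  simpa [hi] using h3

theorem S5 : Pool.Agent.Y659.MPS.St_S5 := by
  intro D W X x y t v₁ v₂ c N hc hcD hXu hxy hW hN hxx hyc ht hx hy hor'
  -- a column
  obtain ⟨k, hk⟩ : ∃ k, t *ᵥ Pi.single k 1 ≠ 0 := by
    by_contra h
    push Not at h
    apply ht
    ext i j
    have := congrFun (h j) i
    simpa using this
  set τ := t *ᵥ Pi.single k 1 with hτ
  set ν₁ := v₁ *ᵥ Pi.single k (1 : ℂ) with hν₁
  set ν₂ := v₂ *ᵥ Pi.single k (1 : ℂ) with hν₂
  have hx1 : x *ᵥ ν₁ = τ := by rw [hν₁, mulVec_mulVec, ← hx]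
  have hy1 : y *ᵥ ν₂ = τ := by rw [hν₂, mulVec_mulVec, ← hy]
  set e : ℕ → (Fin D → ℂ) := fun j => (X ^ j) *ᵥ τ with he
  have he0 : e 0 = τ := by simp [he]
  have hes : ∀ j, e (j + 1) = X *ᵥ e j := by
    intro j; simp only [he]; rw [pow_succ', ← mulVec_mulVec]
  have hep : ∀ i j, X ^ i *ᵥ e j = e (i + j) := by
    intro i j; simp only [he]; rw [pow_add, ← mulVec_mulVec]
  have hX : ∀ v, X *ᵥ v = x *ᵥ v + y *ᵥ v := by
    intro v; rw [← hxy, add_mulVec]
  have hor : ∀ j, j + 2 ≤ D → x *ᵥ e j = 0 ∨ y *ᵥ e j = 0 := by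
    intro j hj
    rcases hor' j hj with h | h
    · left; simp only [he]; rw [hτ, mulVec_mulVec, mulVec_mulVec, h, zero_mulVec]
    · right; simp only [he]; rw [hτ, mulVec_mulVec, mulVec_mulVec, h, zero_mulVec]
  have hxe : ∀ j, j + 2 ≤ D → x *ᵥ e j = 0 ∨ x *ᵥ e j = e (j + 1) := by
    intro j hj
    rcases hor j hj with h | h
    · exact Or.inl h
    · right; rw [hes, hX, h, add_zero]
  have hye : ∀ j, j + 2 ≤ D → y *ᵥ e j = 0 ∨ y *ᵥ e j = e (j + 1) := by
    intro j hj
    rcases hor j hj with h | h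
    · right; rw [hes, hX, h, zero_add]
    · exact Or.inl h
  -- linear independence
  have hli : ∀ n, n ≤ D → LinearIndependent ℂ (fun j : Fin n => e j) := by
    intro n
    induction n with
    | zero => intro _; exact linearIndependent_empty_type
    | succ n ih =>
      intro hn
      rw [linearIndependent_finSucc']
      refine ⟨ih (by omega), ?_⟩
      intro hmem
      have hr : Set.range (Fin.init fun j : Fin (n + 1) => e j) = Set.range (fun j : Fin n => e j) := by
        rfl
      rw [hr] at hmem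
      simp only [Fin.val_last] at hmem
      set U := Submodule.span ℂ (Set.range (fun j : Fin n => e j)) with hU
      rcases Nat.eq_zero_or_pos n with h0 | h0
      · subst h0
        have : U = ⊥ := by rw [hU, Submodule.span_eq_bot]; rintro _ ⟨j, _⟩; exact j.elim0
        rw [this, Submodule.mem_bot, he0] at hmem
        exact hk hmem
      have hmem' : ∀ j, j ≤ n → e j ∈ U := by
        intro j hj
        rcases Nat.lt_or_ge j n with h | h
        · exact Submodule.subset_span ⟨⟨j, h⟩, rfl⟩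
        · have : j = n := by omega
          rw [this]; exact hmem
      have hxU : ∀ u ∈ U, x *ᵥ u ∈ U := by
        intro u hu
        refine Submodule.span_induction (p := fun u _ => x *ᵥ u ∈ U) ?_ ?_ ?_ ?_ hu
        · rintro _ ⟨j, rfl⟩
          rcases hxe j (by have := j.2; omega) with h | h
          · simp only; rw [h]; exact U.zero_mem
          · simp only; rw [h]; exact hmem' _ (by have := j.2; omega)
        · rw [mulVec_zero]; exact U.zero_mem
        · intro a b _ _ ha hb; rw [mulVec_add]; exact U.add_mem ha hb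
        · intro r a _ ha; rw [mulVec_smul]; exact U.smul_mem _ ha
      have hyU : ∀ u ∈ U, y *ᵥ u ∈ U := by
        intro u hu
        refine Submodule.span_induction (p := fun u _ => y *ᵥ u ∈ U) ?_ ?_ ?_ ?_ hu
        · rintro _ ⟨j, rfl⟩
          rcases hye j (by have := j.2; omega) with h | h
          · simp only; rw [h]; exact U.zero_mem
          · simp only; rw [h]; exact hmem' _ (by have := j.2; omega)
        · rw [mulVec_zero]; exact U.zero_mem
        · intro a b _ _ ha hb; rw [mulVec_add]; exact U.add_mem ha hb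
        · intro r a _ ha; rw [mulVec_smul]; exact U.smul_mem _ ha
      have htop := stab_top hW hN U hxU hyU (hmem' 0 (by omega)) (by rw [he0]; exact hk)
      have h1 : Module.finrank ℂ U ≤ n := by
        have := finrank_range_le_card (R := ℂ) (fun j : Fin n => e j)
        simpa [Set.finrank] using this
      rw [htop, finrank_top, Module.finrank_fin_fun] at h1
      omega
  have : Nonempty (Fin D) := ⟨⟨0, by omega⟩⟩
  set b := basisOfLinearIndependentOfCardEqFinrank (hli D le_rfl) (by simp) with hb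
  have hbe : ∀ j : Fin D, b j = e j := by
    intro j; rw [hb, coe_basisOfLinearIndependentOfCardEqFinrank]
  have hrep : ∀ v, ∃ a : ℕ → ℂ, v = ∑ j ∈ Finset.range D, a j • e j := by
    intro v
    refine ⟨fun j => if h : j < D then b.repr v ⟨j, h⟩ else 0, ?_⟩
    rw [Finset.sum_range, ← b.sum_repr v]
    refine Finset.sum_congr rfl fun j _ => ?_
    rw [hbe, b.sum_repr v]
    simp
  have hco : ∀ i (hi : i < D) j, j < D → b.coord ⟨i, hi⟩ (e j) = if j = i then 1 else 0 := by
    intro i hi j hj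
    have := hbe ⟨j, hj⟩
    simp only at this
    rw [← this, Module.Basis.coord_apply, Module.Basis.repr_self, Finsupp.single_apply]
    simp [Fin.ext_iff]
  have hne : ∀ j, j < D → e j ≠ 0 := by
    intro j hj h
    have := hco j hj j hj
    rw [h] at this
    simp at this
  set φ := b.coord ⟨0, by omega⟩ with hφ
  set ψ := b.coord ⟨1, by omega⟩ with hψ
  have hφ0 : φ (e 0) = 1 := by rw [hφ, hco _ _ _ (by omega)]; simp
  have hφj : ∀ j, 1 ≤ j → j < D → φ (e j) = 0 := by
    intro j h1 h2; rw [hφ, hco _ _ _ h2]; simp; omega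
  have hψ1 : ψ (e 1) = 1 := by rw [hψ, hco _ _ _ (by omega)]; simp
  have hψj : ∀ j, 2 ≤ j → j < D → ψ (e j) = 0 := by
    intro j h1 h2; rw [hψ, hco _ _ _ h2]; simp; omega
  -- step 2
  have hφx : ∀ j, j + 2 ≤ D → φ (x *ᵥ e j) = 0 := by
    intro j hj
    rcases hxe j hj with h | h
    · rw [h, map_zero]
    · rw [h]; exact hφj _ (by omega) (by omega)
  have hφy : ∀ j, j + 2 ≤ D → φ (y *ᵥ e j) = 0 := by
    intro j hj
    rcases hye j hj with h | h
    · rw [h, map_zero]
    · rw [h]; exact hφj _ (by omega) (by omega)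
  have hsumv : ∀ (M : Matrix (Fin D) (Fin D) ℂ) (a : ℕ → ℂ) (n : ℕ),
      M *ᵥ (∑ j ∈ Finset.range n, a j • e j) = ∑ j ∈ Finset.range n, a j • (M *ᵥ e j) := by
    intro M a n
    rw [mulVec_sum]
    exact Finset.sum_congr rfl fun j _ => mulVec_smul _ _ _
  obtain ⟨d, rfl⟩ : ∃ d, D = d + 2 := ⟨D - 2, by omega⟩
  have hxlast : x *ᵥ e (d + 1) ≠ 0 := by
    intro h0
    obtain ⟨a, ha⟩ := hrep ν₁
    have h1 : φ (x *ᵥ ν₁) = 1 := by rw [hx1, ← he0, hφ0]
    rw [ha, hsumv, map_sum] at h1
    rw [Finset.sum_eq_zero] at h1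
    · exact zero_ne_one h1
    · intro j hj
      rw [Finset.mem_range] at hj
      rw [map_smul]
      rcases Nat.lt_or_ge j (d + 1) with h | h
      · rw [hφx j (by omega), smul_zero]
      · have : j = d + 1 := by omega
        rw [this, h0, map_zero, smul_zero]
  -- step 3
  have hkill : ∀ i, 1 ≤ i → i + 1 ≤ c → x *ᵥ e (d + 1 - i) = 0 := by
    intro i h1 h2
    rcases hxe (d + 1 - i) (by omega) with h | h
    · exact h
    · exfalso
      have h3 : (x * X ^ (i - 1) * x) *ᵥ e (d + 1 - i) = 0 := by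
        rw [hxx _ (by omega), zero_mulVec]
      rw [← mulVec_mulVec, ← mulVec_mulVec, h, hep] at h3
      apply hxlast
      rw [← h3]
      congr 2
      omega
  have hyk : ∀ i, 1 ≤ i → i + 1 ≤ c → y *ᵥ e (d + 1 - i) = e (d + 1 - i + 1) := by
    intro i h1 h2
    rw [hes, hX, hkill i h1 h2, zero_add]
  have hypow : ∀ i, i + 1 ≤ c → y ^ i *ᵥ e (d + 1 - i) = e (d + 1) := by
    intro i
    induction i with
    | zero => intro _; simp
    | succ i ih =>
      intro hi
      rw [pow_succ, ← mulVec_mulVec, hyk (i + 1) (by omega) hi]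
      have : d + 1 - (i + 1) + 1 = d + 1 - i := by omega
      rw [this]
      exact ih (by omega)
  have hyy : y *ᵥ (y *ᵥ e (d + 1)) = 0 := by
    rw [← hypow (c - 1) (by omega), mulVec_mulVec, mulVec_mulVec, mul_assoc, ← pow_succ', ← pow_succ']
    have : c - 1 + 1 + 1 = c + 1 := by omega
    rw [this, hyc, zero_mulVec]
  -- step 4
  have hx0 : x *ᵥ e 0 = 0 := by
    have := hxx 0 (by omega)
    rw [pow_zero, mul_one] at this
    rw [he0, ← hx1, mulVec_mulVec, this, zero_mulVec]
  have hy0 : y *ᵥ e 0 = e 1 := by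
    rw [hes, hX, hx0, zero_add]
  obtain ⟨a, ha⟩ := hrep ν₂
  rw [Finset.sum_range_succ, Finset.sum_range_succ] at ha
  have h1 : y *ᵥ ν₂ = e 0 := by rw [hy1, he0]
  rw [ha, mulVec_add, mulVec_add, mulVec_smul, mulVec_smul, hsumv] at h1
  have h2 : φ (y *ᵥ e (d + 1)) ≠ 0 := by
    intro h0
    have h3 := congrArg φ h1
    rw [map_add, map_add, map_smul, map_smul, h0, hφ0, hφy d (by omega), map_sum,
      Finset.sum_eq_zero] at h3
    · simp at h3
    · intro j hj
      rw [Finset.mem_range] at hj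
      rw [map_smul, hφy j (by omega), smul_zero]
  have hyd : y *ᵥ e d = e (d + 1) := by
    have := hyk 1 le_rfl (by omega)
    simpa using this
  have h3 := congrArg (fun v => y *ᵥ v) h1
  rw [mulVec_add, mulVec_add, mulVec_smul, mulVec_smul, hyy, smul_zero, add_zero, hy0, hyd,
    mulVec_sum] at h3
  have hyy2 : ∀ j, j < d → φ (y *ᵥ (a j • (y *ᵥ e j))) = 0 ∧ ψ (y *ᵥ (a j • (y *ᵥ e j))) = 0 := by
    intro j hj
    rw [mulVec_smul, map_smul, map_smul]
    rcases hye j (by omega) with h | h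
    · rw [h, mulVec_zero]; simp
    · rw [h]
      rcases hye (j + 1) (by omega) with h' | h'
      · rw [h']; simp
      · rw [h', hφj _ (by omega) (by omega), hψj _ (by omega) (by omega)]; simp
  have had : a d = 0 := by
    have h4 := congrArg φ h3
    rw [map_add, map_smul, hφj 1 le_rfl (by omega), map_sum, Finset.sum_eq_zero, zero_add,
      smul_eq_mul] at h4
    · rcases mul_eq_zero.mp h4 with h | h
      · exact h
      · exact absurd h h2
    · intro j hj
      rw [Finset.mem_range] at hj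
      exact (hyy2 j hj).1
  have h5 := congrArg ψ h3
  rw [had, zero_smul, add_zero, hψ1, map_sum, Finset.sum_eq_zero] at h5
  · exact zero_ne_one h5
  · intro j hj
    rw [Finset.mem_range] at hj
    exact (hyy2 j hj).2

end Pool.Agent.Y461.MPS
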