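import Pool.Agent.Y659.MPS.Stm
import Pool.Agent.Y461.MPS.Pw

/-!
The first level: `m = y ^ (c - 1)`, `p = c - 1`, `q = 0`.
-/

namespace Pool.Agent.Y461.MPS

open Matrix
open Pool.Agent.Results.MP_8bfff4_mp.ExactValue
open Pool.Agent.Y659.MPS

theorem mul_pow_form {R : Type*} [Ring R] (X x y : R) (c : ℕ) (hxy : x + y = X)
    (hxx : ∀ i, i + 2 ≤ c → x * X ^ i * x = 0) (n : ℕ) (hn : n + 1 ≤ c) :
    x * y ^ n = x * X ^ n := by
  rw [pow_form X x y c hxy hxx n (by omega), mul_sub, Finset.mul_sum, Finset.sum_eq_zero, sub_zero]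
  intro j hj
  rw [Finset.mem_range] at hj
  rw [← mul_assoc, ← mul_assoc, hxx _ (by omega), zero_mul]

theorem pow_mul_form {R : Type*} [Ring R] (X x y : R) (c : ℕ) (hxy : x + y = X)
    (hxx : ∀ i, i + 2 ≤ c → x * X ^ i * x = 0) (n : ℕ) (hn : n + 1 ≤ c) :
    y ^ n * x = X ^ n * x := by
  rw [pow_form X x y c hxy hxx n (by omega), sub_mul, Finset.sum_mul, Finset.sum_eq_zero, sub_zero]
  intro j hj
  rw [Finset.mem_range] at hj
  rw [mul_assoc, mul_assoc, ← mul_assoc x, hxx _ (by omega), mul_zero]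

theorem pow_succ_le {D : ℕ} {W : Submodule ℂ (Matrix (Fin D) (Fin D) ℂ)}
    {X : Matrix (Fin D) (Fin D) ℂ} (hF : Flat W X) (n : ℕ) (h1 : 1 ≤ n) (h2 : n + 1 ≤ D) :
    W ^ (n + 1) ≤ ln X * W ^ n ⊔ W ^ n * ln X := by
  have hle : ln X * W ^ n ⊔ W ^ n * ln X ≤ W ^ (n + 1) := by
    refine sup_le ?_ ?_
    · rw [pow_succ']; exact mul_le_mul' (ln_le.mpr hF.hX) le_rfl
    · rw [pow_succ]; exact mul_le_mul' le_rfl (ln_le.mpr hF.hX)
  have := eq_of_le_of_fr_le hle (by rw [hF.hd _ h2, hF.he n h1 (by omega)])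
  rw [this]

theorem span_pow {D : ℕ} {W : Submodule ℂ (Matrix (Fin D) (Fin D) ℂ)}
    {X x y : Matrix (Fin D) (Fin D) ℂ} (hF : Flat W X) (hxy : x + y = X)
    (hW : W ≤ Submodule.span ℂ {x, y}) (n : ℕ) : n ≤ D →
    ∀ U : Submodule ℂ (Matrix (Fin D) (Fin D) ℂ), X ^ n ∈ U →
      (∀ j, j < n → X ^ j * x * X ^ (n - 1 - j) ∈ U) → W ^ n ≤ U := by
  induction n with
  | zero =>
    intro _ U h1 _
    rw [pow_zero] at h1 ⊢
    exact Submodule.one_le.mpr h1
  | succ n ih =>
    intro hn U h1 h2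
    rcases Nat.eq_zero_or_pos n with h0 | h0
    · subst h0
      have hx : x ∈ U := by simpa using h2 0 (by omega)
      have hX : X ∈ U := by simpa using h1
      have hy : y ∈ U := by
        have : y = X - x := by rw [← hxy]; abel
        rw [this]; exact U.sub_mem hX hx
      rw [pow_succ, pow_zero, one_mul]
      refine hW.trans (Submodule.span_le.mpr ?_)
      rintro z (rfl | rfl)
      · exact hx
      · exact hy
    · refine (pow_succ_le hF n h0 hn).trans (sup_le ?_ ?_)
      · have h3 := ih (by omega) (U.comap (LinearMap.mulLeft ℂ X))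
          (by rw [Submodule.mem_comap, LinearMap.mulLeft_apply, ← pow_succ']; exact h1)
          (by
            intro j hj
            rw [Submodule.mem_comap, LinearMap.mulLeft_apply, ← mul_assoc, ← mul_assoc,
              ← pow_succ']
            have := h2 (j + 1) (by omega)
            have e : n + 1 - 1 - (j + 1) = n - 1 - j := by omega
            rw [e] at this
            exact this)
        intro z hz
        obtain ⟨w, hw, rfl⟩ := mem_ln_mul.mp hz
        exact h3 hw
      · have h3 := ih (by omega) (U.comap (LinearMap.mulRight ℂ X))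
          (by rw [Submodule.mem_comap, LinearMap.mulRight_apply, ← pow_succ]; exact h1)
          (by
            intro j hj
            rw [Submodule.mem_comap, LinearMap.mulRight_apply, mul_assoc, ← pow_succ]
            have := h2 j (by omega)
            have e : n + 1 - 1 - j = n - 1 - j + 1 := by omega
            rw [e] at this
            exact this)
        intro z hz
        obtain ⟨w, hw, rfl⟩ := mem_mul_ln.mp hz
        exact h3 hw

theorem Start : Pool.Agent.Y659.MPS.St_Start := by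
  intro D W X Xi x y t v₁ c hF hXXi hXiX hP ht
  obtain ⟨hxy, hx, hy, hx0, hy0, hW, hc2, hcD, hxx, hyc⟩ := hP
  have hxm := mul_pow_form X x y c hxy hxx (c - 1) (by omega)
  have hmx := pow_mul_form X x y c hxy hxx (c - 1) (by omega)
  have hpi : ∀ j, X ^ j * Xi ^ j = 1 := by
    intro j
    induction j with
    | zero => simp
    | succ j ih => rw [pow_succ, pow_succ', mul_assoc, ← mul_assoc X, hXXi, one_mul, ih]
  have hia : ∀ j, j < c - 1 → X ^ j * x * y ^ (c - 1) * Xi ^ (j + 1) = X ^ j * x * X ^ (c - 1 - 1 - j) := by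
    intro j hj
    rw [mul_assoc (X ^ j), hxm]
    have : c - 1 = (c - 1 - 1 - j) + (j + 1) := by omega
    rw [this, pow_add]
    have e : c - 1 - 1 - j + (j + 1) - 1 - j = c - 1 - 1 - j := by omega
    rw [e]
    rw [← mul_assoc, ← mul_assoc, mul_assoc (X ^ j * x * X ^ (c - 1 - 1 - j)), hpi, mul_one]
  refine ⟨⟨?_, ?_, ?_, ?_, ?_, ?_, ?_, ?_, ?_, ?_⟩, ⟨?_, ?_, ?_⟩, ?_, ?_⟩
  · rw [add_zero]; exact Submodule.pow_mem_pow W hy _
  · rw [mul_assoc, hxm, hmx, mul_assoc]
  · simp only [pow_zero, one_mul, mul_one]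
    rw [← pow_succ, ← pow_succ']
  · intro i hi
    refine ⟨Or.inl rfl, ?_, ?_⟩
    · rw [hxx i (by omega), zero_mul]
    · have : y ^ (c - 1) * x * X ^ i * x = y ^ (c - 1) * (x * X ^ i * x) := by
        simp only [mul_assoc]
      rw [this, hxx i (by omega), mul_zero]
  · intro i hi; exact absurd hi (Nat.not_lt_zero i)
  · intro _; rfl
  · intro _; rfl
  · intro j hj
    rw [hia j hj]
    have : c - 1 + 0 = j + 1 + (c - 1 - 1 - j) := by omega
    rw [this, pow_add, pow_add, pow_one]
    exact Submodule.mul_mem_mul (Submodule.mul_mem_mul (Submodule.pow_mem_pow W hF.hX _) hx)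
      (Submodule.pow_mem_pow W hF.hX _)
  · intro j hj; exact absurd hj (Nat.not_lt_zero j)
  · intro U hm hj _
    rw [add_zero]
    have hj' : ∀ j, j < c - 1 → X ^ j * x * X ^ (c - 1 - 1 - j) ∈ U := by
      intro j h; rw [← hia j h]; exact hj j h
    refine span_pow hF hxy hW (c - 1) (by omega) U ?_ hj'
    have h1 := pow_form X x y c hxy hxx (c - 1) (by omega)
    have h2 : X ^ (c - 1) = y ^ (c - 1)
        + ∑ j ∈ Finset.range (c - 1), X ^ (c - 1 - 1 - j) * x * X ^ j := by
      rw [h1]; abel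
    rw [h2]
    refine U.add_mem hm (U.sum_mem ?_)
    intro j h
    rw [Finset.mem_range] at h
    have h3 := hj' (c - 1 - 1 - j) (by omega)
    have e : c - 1 - 1 - (c - 1 - 1 - j) = j := by omega
    rw [e] at h3
    exact h3
  · omega
  · intro _
    exact ⟨fun _ _ => rfl, rfl, fun s hs => absurd hs (Nat.not_lt_zero s)⟩
  · intro h; exact absurd h (Nat.not_lt_zero _)
  · rw [add_zero, ht, ← mul_assoc, hmx, mul_assoc]
  · intro j hj
    left
    rw [ht, ← mul_assoc, hxx j (by omega), zero_mul]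

end Pool.Agent.Y461.MPS
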